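import Pool.Agent.TH526.ZT.D
import Pool.Agent.TH526.ZT.J

/-!
# MP_c95b3b_ag: Zilber's conjecture for all but finitely many translates of an arbitrary subvariety
of a torus by the elements of a finitely generated group

Let `V` be an arbitrary irreducible subvariety of the torus `(ℂ^×)^n`. There is a number `K`,
depending only on `V`, with the following property. Let `g` be a vector of nonzero rational numbers,
let `p_i`, `i < N`, be prime numbers (small or large), and suppose that any `t` of the vectors
`(v_{p_i}(g_1), …, v_{p_i}(g_n))` span `ℚ^n`, where `K t < N`; that is, at most `t - 1` of them are on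
a common hyperplane. Then for all but finitely many integers `m` the translate `W = g ^ m V` has no
atypical subvariety at all; in particular the set `U(W)` of its points on algebraic subgroups `H` with
`dim V + dim H ≤ n - 1` is empty. (For example, `t = n` and vectors in general position.)

The same is true if `g` is a vector of nonzero elements of a number field `F ⊂ ℂ` (or any countable
field), for example of units, and the `p`-adic valuations are replaced by `N` absolute values of
`F`, archimedean or not.

More generally, let `v_i`, `i < N`, be any absolute values of the field `ℂ`, archimedean or not (for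
example extensions of `p`-adic ones, or `|σ(x)|` for an automorphism `σ`), and let `g_1, …, g_r` be any points of `(ℂ^×)^n`. Consider the
translates by `g_1 ^ m_1 ⋯ g_r ^ m_r`, where `m` is an integral point of a closed cone `C` of `ℝ^r`,
such that for all real `m ≠ 0` in `C` any `t` of the `N` vectors of the logarithms
`∑_k m_k (log v_i(g_k1), …, log v_i(g_kn))` span `ℝ^n` (for `r = 1` one can take `C = ℝ`). Then all but
finitely many of these translates have only typical intersections with all cosets `η H` such that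
the numbers `log v_i(η_j)` are bounded by a given number `B`.

In the proof the distance of the tropicalizations (amoebas) of `V` at the places `v_i`, which may be
places of bad reduction, to finitely many linear spaces of dimension at most `dim V` is bounded. The starting
files `Translates` and `NoAtypical` (of `MP_b7926e_nt`) treat integral vectors in one residue class.
-/

set_option autoImplicit false

namespace Pool.Agent.Results.MP_c95b3b_ag.PowerTranslates

open MvPolynomial
open Pool.Agent.Results.MP_b7926e_nt.NoAtypical (coset idealOf dim mem_idealOf NoAtypicalSubvariety)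

/-- The translate of `V` by the vector `g`. -/
def translate {n : ℕ} (g : Fin n → ℂ) (V : Set (Fin n → ℂ)) : Set (Fin n → ℂ) :=
  {y | ∃ x ∈ V, ∀ i, y i = g i * x i}

/-- The points of `W` which lie on an algebraic subgroup `H = {y | y ^ a = 1 for all a in M}` with
`dim W + dim H ≤ n - 1`, where `dim H = n - rank M`. -/
def U {n : ℕ} (W : Set (Fin n → ℂ)) : Set (Fin n → ℂ) :=
  {y | y ∈ W ∧ ∃ M : Submodule ℤ (Fin n → ℤ), dim W < (Module.finrank ℤ M : Cardinal) ∧
    ∀ a ∈ M, ∏ i, y i ^ a i = 1}

/-- Every irreducible subset `A` of the intersection of `W` with a coset `η H`, such that all the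
numbers `log v_i(η_j)` are bounded by `B`, satisfies `dim A ≤ dim W + dim H - n`, where
`dim H = n - rank M`. The torsion cosets are such cosets for every `B ≥ 0`. -/
def NoAtypicalWithin {n N : ℕ} (v : Fin N → AbsoluteValue ℂ ℝ) (B : ℝ)
    (W : Set (Fin n → ℂ)) : Prop :=
  ∀ (M : Submodule ℤ (Fin n → ℤ)) (η : Fin n → ℂ), (∀ j, η j ≠ 0) →
    (∀ i j, |Real.log (v i (η j))| ≤ B) →
      ∀ A : Set (Fin n → ℂ), A ⊆ W → A ⊆ coset M η → (idealOf A).IsPrime →
        dim A + (Module.finrank ℤ M : Cardinal) ≤ dim W

/-- The element `g_1 ^ m_1 ⋯ g_r ^ m_r` of the torus. -/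
noncomputable def power {n r : ℕ} (g : Fin r → Fin n → ℂ) (m : Fin r → ℤ) : Fin n → ℂ :=
  fun j => ∏ k, g k j ^ m k

/-- For all nonzero `m` in `C` any `t` of the vectors `∑_k m_k (log v_i(g_k1), …, log v_i(g_kn))`
span `ℝ^n`. -/
def GeneralPosition {n r N : ℕ} (t : ℕ) (v : Fin N → AbsoluteValue ℂ ℝ) (g : Fin r → Fin n → ℂ)
    (C : Set (Fin r → ℝ)) : Prop :=
  ∀ m ∈ C, m ≠ 0 → ∀ T : Finset (Fin N), T.card = t →
    Submodule.span ℝ (Set.range fun (i : T) (j : Fin n) => ∑ k, m k * Real.log (v i (g k j))) = ⊤

/-- A non-archimedean absolute value or the absolute value given by an embedding into `ℂ`. -/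
def IsPlace {F : Type} [Field F] (w : AbsoluteValue F ℝ) : Prop :=
  IsNonarchimedean w ∨ ∃ σ : F →+* ℂ, ∀ x, w x = ‖σ x‖

/-- The general case. -/
theorem general (n : ℕ) (V : Set (Fin n → ℂ)) (hV : (idealOf V).IsPrime) :
    ∃ K : ℕ, ∀ N t : ℕ, K * t < N → ∀ (v : Fin N → AbsoluteValue ℂ ℝ) (r : ℕ)
      (g : Fin r → Fin n → ℂ), (∀ k j, g k j ≠ 0) →
        ∀ C : Set (Fin r → ℝ), IsClosed C → (∀ m ∈ C, ∀ s : ℝ, 0 < s → s • m ∈ C) →
          GeneralPosition t v g C → ∀ B : ℝ,
            {m : Fin r → ℤ | (fun k => (m k : ℝ)) ∈ C ∧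
              ¬ NoAtypicalWithin v B (translate (power g m) V)}.Finite := by
  obtain ⟨K, h⟩ := TH526.ZT.criterion n V hV
  refine ⟨K, fun N t hN v r g hg C hC hcone hgen B => ?_⟩
  obtain ⟨B', hB', hmain⟩ := h N t hN v B
  obtain ⟨R, hR⟩ := TH526.ZT.cone_bound t (fun k i j => Real.log (v i (g k j))) C hC hcone hgen B'
  have hfin : (Set.pi Set.univ fun _ : Fin r => Set.Icc (-⌈R⌉) ⌈R⌉).Finite :=
    Set.Finite.pi fun _ => Set.finite_Icc _ _
  refine hfin.subset ?_
  rintro m ⟨hmC, hm⟩
  have hp0 : ∀ j, power g m j ≠ 0 := fun j =>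
    Finset.prod_ne_zero_iff.2 fun k _ => zpow_ne_zero _ (hg k j)
  have hlog : ∀ i j, Real.log (v i (power g m j)) = ∑ k, (m k : ℝ) * Real.log (v i (g k j)) := by
    intro i j
    rw [power, map_prod, Real.log_prod]
    · refine Finset.sum_congr rfl fun k _ => ?_
      rw [map_zpow₀, Real.log_zpow]
    · intro k _
      rw [map_zpow₀]
      exact zpow_ne_zero _ ((v i).ne_zero (hg k j))
  rw [NoAtypicalWithin] at hm
  push Not at hm
  obtain ⟨M, η, hη, hηB, A, hAW, hAT, hA, hdim⟩ := hm
  have hdim' : dim V < dim A + (Module.finrank ℤ M : Cardinal) :=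
    (TH526.ZT.dim_le_dim_tl (power g m) hp0 V).trans_lt hdim
  obtain ⟨T, hT, φ, hφ, hφB⟩ := hmain (power g m) hp0 M η hη hηB A hAW hAT hA hdim'
  simp only [hlog] at hφB
  have hnorm := hR _ hmC T hT φ hφ hφB
  intro k _
  have h1 : |(m k : ℝ)| ≤ R := (norm_le_pi_norm (fun k => (m k : ℝ)) k).trans hnorm
  have h2 : |(m k : ℝ)| ≤ (⌈R⌉ : ℝ) := h1.trans (Int.le_ceil R)
  have h3 : |m k| ≤ ⌈R⌉ := by exact_mod_cast h2
  exact Set.mem_Icc.2 (abs_le.1 h3)

/-- Let `V` be an irreducible subvariety of the torus `(ℂ^×)^n`. There is a number `K` such that for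
all `N` and `t` with `K t < N`:

(1) if `g` is a vector of nonzero rational numbers, and if any `t` of the vectors of its valuations
at `N` prime numbers span `ℚ^n`, then for all but finitely many integers `m` the translate
`W = g ^ m V` has no atypical subvariety and `U(W)` is empty;

(2) the same for a vector `g` of nonzero elements of a countable field `F` in `ℂ` such that for `N`
absolute values of `F`, archimedean or not, any `t` of the vectors `(log v_i(g_j))_j` span `ℝ^n`;

(3) if `g_1, …, g_r` are in `(ℂ^×)^n`, and if for all real `m ≠ 0` in the closed cone `C` any `t` of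
their vectors at `N` absolute values of `ℂ` span `ℝ^n`, then for every `B` and for all but finitely
many integral points `m` of `C` the translate of `V` by `g_1 ^ m_1 ⋯ g_r ^ m_r` has no atypical
intersection with a coset bounded by `B` at these absolute values. -/
theorem result (n : ℕ) (V : Set (Fin n → ℂ)) (hV : (idealOf V).IsPrime)
    (hV0 : ∀ x ∈ V, ∀ j, x j ≠ 0) :
    ∃ K : ℕ, ∀ N t : ℕ, K * t < N →
      (∀ p : Fin N → ℕ, (∀ i, (p i).Prime) → ∀ g : Fin n → ℚ, (∀ j, g j ≠ 0) →
        (∀ T : Finset (Fin N), T.card = t →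
          Submodule.span ℚ (Set.range fun (i : T) (j : Fin n) =>
            (padicValRat (p i) (g j) : ℚ)) = ⊤) →
        {m : ℤ | ¬ (NoAtypicalSubvariety (translate (fun j => (g j : ℂ) ^ m) V) ∧
          U (translate (fun j => (g j : ℂ) ^ m) V) = ∅)}.Finite) ∧
      (∀ (F : Type) [Field F] [Countable F] [Algebra F ℂ] (v : Fin N → AbsoluteValue F ℝ),
        (∀ i, IsPlace (v i)) → ∀ g : Fin n → F, (∀ j, g j ≠ 0) →
        (∀ T : Finset (Fin N), T.card = t →
          Submodule.span ℝ (Set.range fun (i : T) (j : Fin n) => Real.log (v i (g j))) = ⊤) →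
        {m : ℤ | ¬ (NoAtypicalSubvariety (translate (fun j => algebraMap F ℂ (g j) ^ m) V) ∧
          U (translate (fun j => algebraMap F ℂ (g j) ^ m) V) = ∅)}.Finite) ∧
      (∀ (v : Fin N → AbsoluteValue ℂ ℝ) (r : ℕ) (g : Fin r → Fin n → ℂ), (∀ k j, g k j ≠ 0) →
          ∀ C : Set (Fin r → ℝ), IsClosed C → (∀ m ∈ C, ∀ s : ℝ, 0 < s → s • m ∈ C) →
            GeneralPosition t v g C → ∀ B : ℝ,
              {m : Fin r → ℤ | (fun k => (m k : ℝ)) ∈ C ∧
                ¬ NoAtypicalWithin v B (translate (power g m) V)}.Finite) := by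
  classical
  obtain ⟨K, h⟩ := general n V hV
  have key : ∀ N t : ℕ, K * t < N → ∀ (v : Fin N → AbsoluteValue ℂ ℝ) (g : Fin n → ℂ),
      (∀ j, g j ≠ 0) → (∀ T : Finset (Fin N), T.card = t →
        Submodule.span ℝ (Set.range fun (i : T) (j : Fin n) => Real.log (v i (g j))) = ⊤) →
      {m : ℤ | ¬ (NoAtypicalSubvariety (translate (fun j => g j ^ m) V) ∧
        U (translate (fun j => g j ^ m) V) = ∅)}.Finite := by
    intro N t hN v g hg hspan
    have hgp : GeneralPosition t v (fun (_ : Fin 1) (j : Fin n) => g j) Set.univ := by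
      intro m _ hm T hT
      have hm0 : m 0 ≠ 0 := by
        intro h0
        apply hm
        funext k
        rw [Subsingleton.elim k 0]
        exact h0
      have h1 := hspan T hT
      rw [eq_top_iff] at h1 ⊢
      refine h1.trans (Submodule.span_le.2 ?_)
      rintro _ ⟨i, rfl⟩
      have h2 : (fun j : Fin n => Real.log (v i (g j))) = (m 0)⁻¹ •
          fun j : Fin n => ∑ k : Fin 1, m k * Real.log (v i (g j)) := by
        funext j
        simp only [Finset.univ_unique, Fin.default_eq_zero, Finset.sum_singleton, Pi.smul_apply,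
          smul_eq_mul]
        rw [inv_mul_cancel_left₀ hm0]
      rw [SetLike.mem_coe]
      change (fun j : Fin n => Real.log (v i (g j))) ∈ _
      rw [h2]
      exact Submodule.smul_mem _ _ (Submodule.subset_span ⟨i, rfl⟩)
    have hfin := h N t hN v 1 (fun _ j => g j) (fun _ j => hg j) Set.univ isClosed_univ
      (fun _ _ _ _ => Set.mem_univ _) hgp 0
    -- from vectors `m : Fin 1 → ℤ` to integers
    have hfin2 := hfin.image (fun m : Fin 1 → ℤ => m 0)
    refine hfin2.subset ?_
    intro m hm
    refine ⟨fun _ => m, ⟨Set.mem_univ _, fun hno => hm ?_⟩, rfl⟩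
    have hW : translate (power (fun (_ : Fin 1) (j : Fin n) => g j) fun _ => m) V =
        translate (fun j => g j ^ m) V := by
      congr 1
      funext j
      simp [power]
    rw [hW] at hno
    have hno' : NoAtypicalSubvariety (translate (fun j => g j ^ m) V) := by
      rintro M η ⟨k, hk, hηk⟩ A hA hAT hAp
      refine hno M η (fun j h0 => ?_) (fun i j => ?_) A hA hAT hAp
      · have := hηk j
        rw [h0, zero_pow hk.ne'] at this
        exact zero_ne_one this
      · have h1 := congrArg (v i) (hηk j)
        rw [map_pow, map_one] at h1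
        have h2 := (pow_eq_one_iff_of_nonneg (AbsoluteValue.nonneg _ _) hk.ne').1 h1
        rw [h2, Real.log_one, abs_zero]
    refine ⟨hno', ?_⟩
    rw [Set.eq_empty_iff_forall_notMem]
    rintro y ⟨hyW, M, hdim, hM⟩
    have hyz : ∀ j, y j ≠ 0 := by
      intro j
      obtain ⟨x, hx, hyx⟩ := hyW
      rw [hyx j]
      exact mul_ne_zero (zpow_ne_zero _ (hg j)) (hV0 x hx j)
    have hprime : (idealOf ({y} : Set (Fin n → ℂ))).IsPrime := by
      have h1 : idealOf ({y} : Set (Fin n → ℂ)) =
          RingHom.ker (eval y : MvPolynomial (Fin n) ℂ →+* ℂ) := by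
        ext f
        rw [mem_idealOf, RingHom.mem_ker]
        simp
      rw [h1]
      exact RingHom.ker_isPrime _
    have h1 := hno' M (fun _ => 1) ⟨1, one_pos, fun _ => one_pow _⟩ {y}
      (Set.singleton_subset_iff.2 hyW) (Set.singleton_subset_iff.2 ⟨hyz, fun a ha => by
        rw [hM a ha]
        simp⟩) hprime
    have h2 : (Module.finrank ℤ M : Cardinal) ≤
        dim ({y} : Set (Fin n → ℂ)) + (Module.finrank ℤ M : Cardinal) := le_add_self
    exact absurd (hdim.trans_le (h2.trans h1)) (lt_irrefl _)
  refine ⟨K, fun N t hN => ⟨fun p hp g hg hspan => ?_, fun F _ _ _ v hv g hg hspan => ?_,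
    h N t hN⟩⟩
  · have hfact : ∀ i, Fact (p i).Prime := fun i => ⟨hp i⟩
    let τ : ∀ i, ℂ →+* PadicAlgCl (p i) := fun i =>
      Classical.choice (H936R2.exists_embedding (p i))
    refine key N t hN (fun i => TH526.ZT.pabs (p i) (τ i)) (fun j => (g j : ℂ))
      (fun j => Rat.cast_ne_zero.2 (hg j)) fun T hT => ?_
    have h1 := TH526.ZT.span_real _ (hspan T hT) (fun i : T => -Real.log (p i))
      (fun i => neg_ne_zero.2 (Real.log_pos (by exact_mod_cast (hp i).one_lt)).ne')
    rw [← h1]
    congr 2
    funext i j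
    rw [TH526.ZT.log_pabs _ _ _ (hg j)]
    push_cast
    ring
  · choose v' hv' using fun i => TH526.ZT.exists_abs_extend F (v i) (hv i)
    refine key N t hN v' (fun j => algebraMap F ℂ (g j)) (fun j => (map_ne_zero _).2 (hg j))
      fun T hT => ?_
    simp only [hv']
    exact hspan T hT

end Pool.Agent.Results.MP_c95b3b_ag.PowerTranslates
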