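import Pool.Agent.TH526.ZT.G

/-!
# MP_c95b3b_ag: Zilber's conjecture for almost all sparse systems with S-unit coefficients

Let `A_1, …, A_r` be arbitrary finite nonempty sets of exponents in `ℤ^n`, `D = ∑ |A_j|`, and let
`V_b` be the subvariety of the torus `(ℂ^×)^n` defined by the `r` Laurent polynomials
`f_j = ∑_{α ∈ A_j} b_jα x ^ α`.

Let `t ∏_j |A_j| (|A_j| - 1) < N`, let `p_1, …, p_N` be distinct prime numbers (for example the
first `N`), and consider the coefficient vectors `b_jα = a_jα ∏_i p_i ^ e_i(j, α)` with fixed nonzero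
complex numbers `a_jα` and integers `|e_i(j, α)| ≤ R`. For all `(2 R + 1)^(N D)` of these vectors
with at most `c (2 R + 1)^(N D + r - 1 - t)` exceptions

* `V_b` has no atypical intersection with a torsion coset: every irreducible subset `W` of the
  intersection of `V_b` with a torsion coset of codimension `k` satisfies `dim W ≤ n - r - k` (in
  particular all components `Y` of `V_b` have the dimension `n - r`), and
* `V_b` has no point on algebraic subgroups of dimension less than `r`, so that the set `U(Y)` of the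
  problem is empty for all components `Y` of `V_b`.

So this holds for 100 % of the systems if `t ≥ r`, and the power saving `t - r + 1` grows linearly with
the number of primes. More generally the `p_i` can be replaced by any absolute values `v_i` of the
field `ℂ`, archimedean or not, and the systems of the form above by all systems of which the vector of all
`log v_i(b_jα)` is at a bounded distance from the vector of all `s_i e_i(j, α)`; and the torsion cosets by
all cosets `η H` with all `|log v_i(η_l)|` bounded.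

The starting file `MP_defd1c_ag.TorusCompleteIntersections` is about a positive proportion of the
sparse systems with integral coefficients (one residue class).
-/

set_option autoImplicit false

namespace Pool.Agent.Results.MP_c95b3b_ag.SUnitSystems

open MvPolynomial
open Pool.Agent.Results.MP_b7926e_nt.NoAtypical (coset idealOf dim mem_idealOf)

/-- The index set of the coefficients of `r` Laurent polynomials with the supports `A_j`; it has
`∑ |A_j|` elements. -/
abbrev Coeff {n r : ℕ} (A : Fin r → Finset (Fin n → ℤ)) : Type := (j : Fin r) × {α // α ∈ A j}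

/-- The subvariety `V_b` of the torus `(ℂ^×)^n` which is defined by the Laurent polynomials
`∑_{α ∈ A_j} b_jα x ^ α`, `j < r`. -/
def sparseSystem {n r : ℕ} (A : Fin r → Finset (Fin n → ℤ)) (b : Coeff A → ℂ) :
    Set (Fin n → ℂ) :=
  {x | (∀ l, x l ≠ 0) ∧
    ∀ j, ∑ α : {α // α ∈ A j}, b ⟨j, α⟩ * ∏ l, x l ^ (α : Fin n → ℤ) l = 0}

/-- Every irreducible subset `W` of the intersection of the system of `r` equations with a torsion
coset `η H` satisfies `dim W ≤ n - r - codim H`, where `codim H = rank M`. -/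
def Typical {n r : ℕ} (A : Fin r → Finset (Fin n → ℤ)) (b : Coeff A → ℂ) : Prop :=
  ∀ (M : Submodule ℤ (Fin n → ℤ)) (η : Fin n → ℂ), (∃ m : ℕ, 0 < m ∧ ∀ l, η l ^ m = 1) →
    ∀ W : Set (Fin n → ℂ), W ⊆ sparseSystem A b → W ⊆ coset M η → (idealOf W).IsPrime →
      dim W + (r : Cardinal) + (Module.finrank ℤ M : Cardinal) ≤ (n : Cardinal)

/-- The same for all cosets `η H` such that all the numbers `log v_i(η_l)` are bounded by `B`. -/
def TypicalWithin {n r N : ℕ} (v : Fin N → AbsoluteValue ℂ ℝ) (B : ℝ)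
    (A : Fin r → Finset (Fin n → ℤ)) (b : Coeff A → ℂ) : Prop :=
  ∀ (M : Submodule ℤ (Fin n → ℤ)) (η : Fin n → ℂ), (∀ l, η l ≠ 0) →
    (∀ i l, |Real.log (v i (η l))| ≤ B) →
      ∀ W : Set (Fin n → ℂ), W ⊆ sparseSystem A b → W ⊆ coset M η → (idealOf W).IsPrime →
        dim W + (r : Cardinal) + (Module.finrank ℤ M : Cardinal) ≤ (n : Cardinal)

/-- The points of `V_b` on algebraic subgroups `{y | y ^ a = 1 for all a in M}` of dimension
`n - rank M` less than `r`. -/
def U {n r : ℕ} (A : Fin r → Finset (Fin n → ℤ)) (b : Coeff A → ℂ) : Set (Fin n → ℂ) :=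
  {y | y ∈ sparseSystem A b ∧ ∃ M : Submodule ℤ (Fin n → ℤ), n < r + Module.finrank ℤ M ∧
    ∀ a ∈ M, ∏ l, y l ^ a l = 1}

/-- the coefficients as a function of all exponents -/
noncomputable def ext {n r : ℕ} (A : Fin r → Finset (Fin n → ℤ)) (b : Coeff A → ℂ) (j : Fin r)
    (α : Fin n → ℤ) : ℂ :=
  by classical exact if h : α ∈ A j then b ⟨j, α, h⟩ else 0

theorem ext_mem {n r : ℕ} (A : Fin r → Finset (Fin n → ℤ)) (b : Coeff A → ℂ) (j : Fin r)
    (α : Fin n → ℤ) (h : α ∈ A j) : ext A b j α = b ⟨j, α, h⟩ := by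
  rw [ext, dif_pos h]

theorem sys_eq {n r : ℕ} (A : Fin r → Finset (Fin n → ℤ)) (b : Coeff A → ℂ) :
    TH526.ZT.sys A (ext A b) = sparseSystem A b := by
  ext x
  refine and_congr_right fun _ => forall_congr' fun j => ?_
  have h1 : ∑ α ∈ A j, ext A b j α * ∏ l, x l ^ α l =
      ∑ α : {α // α ∈ A j}, b ⟨j, α⟩ * ∏ l, x l ^ (α : Fin n → ℤ) l := by
    rw [← Finset.sum_coe_sort]
    refine Finset.sum_congr rfl fun α _ => ?_
    rw [ext_mem A b j α α.2]
  rw [h1]

/-- The general case. -/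
theorem general {n r : ℕ} (A : Fin r → Finset (Fin n → ℤ)) (hA : ∀ j, (A j).Nonempty) (N t : ℕ)
    (hN : (∏ j, (A j).card * ((A j).card - 1)) * t < N) (v : Fin N → AbsoluteValue ℂ ℝ)
    (s : Fin N → ℝ) (hs : ∀ i, s i ≠ 0) (B : ℝ) :
    ∃ c : ℕ, ∀ R : ℕ, 1 ≤ R → ∃ E : Finset (Fin N → Coeff A → ℤ),
      E.card * (2 * R + 1) ^ t ≤ c * (2 * R + 1) ^ (N * ∑ j, (A j).card + r - 1) ∧
      ∀ e : Fin N → Coeff A → ℤ, (∀ i x, |e i x| ≤ R) → e ∉ E →
        ∀ b : Coeff A → ℂ, (∀ x, b x ≠ 0) →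
          (∀ i x, |Real.log (v i (b x)) - s i * e i x| ≤ B) → TypicalWithin v B A b := by
  classical
  obtain ⟨B', hmain⟩ := TH526.ZT.sys_criterion A hA N t (by rwa [TH526.ZT.card_pairs]) v B
  let S : ℝ := ∑ i, |s i|⁻¹
  have hS : ∀ i, |s i|⁻¹ ≤ S := fun i =>
    Finset.single_le_sum (f := fun i => |s i|⁻¹) (fun _ _ => inv_nonneg.2 (abs_nonneg _))
      (Finset.mem_univ i)
  obtain ⟨c, hc⟩ := TH526.ZT.count_sys A N t ((|B'| + r * (2 * |B|)) * S)
  refine ⟨c, fun R hR => ?_⟩
  obtain ⟨E, hE, hE'⟩ := hc R hR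
  refine ⟨E, hE, fun e he heE b hb hbe => ?_⟩
  by_contra hcon
  rw [TypicalWithin] at hcon
  push Not at hcon
  obtain ⟨M, η, hη, hηB, W, hWV, hWT, hW, hdim⟩ := hcon
  obtain ⟨T, hT, σ, hσ, φ, hφ, hφB⟩ := hmain (ext A b)
    (fun j α hα => by rw [ext_mem A b j α hα]; exact hb _) M η hη hηB W
    (by rw [sys_eq]; exact hWV) hWT hW hdim
  have hσA : ∀ j, (σ j).1 ∈ A j ∧ (σ j).2 ∈ A j ∧ (σ j).1 ≠ (σ j).2 := fun j => by
    have := Fintype.mem_piFinset.1 hσ j
    rwa [Finset.mem_offDiag] at this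
  refine heE (hE' e he ⟨T, hT, σ, hσA, φ, hφ, fun i hi => ?_⟩)
  have h1 := hφB i hi
  have h2 : s i * ∑ j, φ j * ((e i ⟨j, (σ j).1, (hσA j).1⟩ : ℝ) -
      e i ⟨j, (σ j).2, (hσA j).2.1⟩) =
      ∑ j, φ j * (Real.log (v i (ext A b j (σ j).1)) - Real.log (v i (ext A b j (σ j).2))) -
      ∑ j, φ j * ((Real.log (v i (b ⟨j, (σ j).1, (hσA j).1⟩)) -
          s i * e i ⟨j, (σ j).1, (hσA j).1⟩) -
        (Real.log (v i (b ⟨j, (σ j).2, (hσA j).2.1⟩)) -
          s i * e i ⟨j, (σ j).2, (hσA j).2.1⟩)) := by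
    rw [← Finset.sum_sub_distrib, Finset.mul_sum]
    refine Finset.sum_congr rfl fun j _ => ?_
    rw [ext_mem A b j _ (hσA j).1, ext_mem A b j _ (hσA j).2.1]
    ring
  have h3 : |∑ j, φ j * ((Real.log (v i (b ⟨j, (σ j).1, (hσA j).1⟩)) -
          s i * e i ⟨j, (σ j).1, (hσA j).1⟩) -
        (Real.log (v i (b ⟨j, (σ j).2, (hσA j).2.1⟩)) -
          s i * e i ⟨j, (σ j).2, (hσA j).2.1⟩))| ≤ r * (2 * |B|) := by
    refine (Finset.abs_sum_le_sum_abs _ _).trans ?_
    calc ∑ j, |φ j * ((Real.log (v i (b ⟨j, (σ j).1, (hσA j).1⟩)) -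
            s i * e i ⟨j, (σ j).1, (hσA j).1⟩) -
          (Real.log (v i (b ⟨j, (σ j).2, (hσA j).2.1⟩)) -
            s i * e i ⟨j, (σ j).2, (hσA j).2.1⟩))|
        ≤ ∑ _j : Fin r, (1 : ℝ) * (2 * |B|) := by
          refine Finset.sum_le_sum fun j _ => ?_
          rw [abs_mul]
          refine mul_le_mul (hφ ▸ norm_le_pi_norm φ j) ?_ (abs_nonneg _) zero_le_one
          refine (abs_sub _ _).trans ?_
          have h4 := (hbe i ⟨j, (σ j).1, (hσA j).1⟩).trans (le_abs_self B)
          have h5 := (hbe i ⟨j, (σ j).2, (hσA j).2.1⟩).trans (le_abs_self B)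
          linarith
      _ = r * (2 * |B|) := by
        rw [Finset.sum_const, Finset.card_univ, Fintype.card_fin, nsmul_eq_mul, one_mul]
  have h6 : |s i| * |∑ j, φ j * ((e i ⟨j, (σ j).1, (hσA j).1⟩ : ℝ) -
      e i ⟨j, (σ j).2, (hσA j).2.1⟩)| ≤ |B'| + r * (2 * |B|) := by
    rw [← abs_mul, h2]
    exact (abs_sub _ _).trans (add_le_add (h1.trans (le_abs_self _)) h3)
  have hsi : 0 < |s i| := abs_pos.2 (hs i)
  have hnn : 0 ≤ |B'| + r * (2 * |B|) := by positivity
  calc |∑ j, φ j * ((e i ⟨j, (σ j).1, (hσA j).1⟩ : ℝ) - e i ⟨j, (σ j).2, (hσA j).2.1⟩)|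
      = (|s i| * |∑ j, φ j * ((e i ⟨j, (σ j).1, (hσA j).1⟩ : ℝ) -
          e i ⟨j, (σ j).2, (hσA j).2.1⟩)|) * |s i|⁻¹ := by
        field_simp
    _ ≤ (|B'| + r * (2 * |B|)) * |s i|⁻¹ := by gcongr
    _ ≤ (|B'| + r * (2 * |B|)) * S := by gcongr; exact hS i

/-- no points on small subgroups -/
theorem U_empty {n r : ℕ} (A : Fin r → Finset (Fin n → ℤ)) (b : Coeff A → ℂ)
    (h : Typical A b) : U A b = ∅ := by
  rw [Set.eq_empty_iff_forall_notMem]
  rintro y ⟨hyW, M, hdim, hM⟩
  have hprime : (idealOf ({y} : Set (Fin n → ℂ))).IsPrime := by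
    have h1 : idealOf ({y} : Set (Fin n → ℂ)) =
        RingHom.ker (eval y : MvPolynomial (Fin n) ℂ →+* ℂ) := by
      ext f
      rw [mem_idealOf, RingHom.mem_ker]
      simp
    rw [h1]
    exact RingHom.ker_isPrime _
  have h1 := h M (fun _ => 1) ⟨1, one_pos, fun _ => one_pow _⟩ {y}
    (Set.singleton_subset_iff.2 hyW) (Set.singleton_subset_iff.2 ⟨hyW.1, fun a ha => by
      rw [hM a ha]
      simp⟩) hprime
  have h2 : (r : Cardinal) + (Module.finrank ℤ M : Cardinal) ≤
      dim ({y} : Set (Fin n → ℂ)) + (r : Cardinal) + (Module.finrank ℤ M : Cardinal) := by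
    rw [add_assoc]
    exact le_add_self
  have h3 : ((r + Module.finrank ℤ M : ℕ) : Cardinal) ≤ (n : Cardinal) := by
    push_cast
    exact h2.trans h1
  have h4 : r + Module.finrank ℤ M ≤ n := by exact_mod_cast h3
  omega

/-- Let `A_1, …, A_r` be finite nonempty subsets of `ℤ^n` and `t ∏_j |A_j| (|A_j| - 1) < N`.

(1) Let `p_i`, `i < N`, be distinct prime numbers and `a_jα` nonzero complex numbers. Among the
`(2 R + 1)^(N ∑ |A_j|)` coefficient vectors `b_jα = a_jα ∏_i p_i ^ e_i(j, α)` with integers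
`|e_i(j, α)| ≤ R` at most `c (2 R + 1)^(N ∑ |A_j| + r - 1 - t)` are such that `V_b` has an atypical
intersection with a torsion coset or a point on an algebraic subgroup of dimension less than `r`.

(2) The same for arbitrary absolute values of `ℂ`, with bounded errors. -/
theorem result {n r : ℕ} (A : Fin r → Finset (Fin n → ℤ)) (hA : ∀ j, (A j).Nonempty) (N t : ℕ)
    (hN : (∏ j, (A j).card * ((A j).card - 1)) * t < N) :
    (∀ p : Fin N → ℕ, (∀ i, (p i).Prime) → Function.Injective p →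
      ∀ a : Coeff A → ℂ, (∀ x, a x ≠ 0) → ∃ c : ℕ, ∀ R : ℕ, 1 ≤ R →
        Nat.card {e : Fin N → Coeff A → ℤ // (∀ i x, |e i x| ≤ R) ∧
          ¬ (Typical A (fun x => a x * ∏ i, (p i : ℂ) ^ e i x) ∧
            U A (fun x => a x * ∏ i, (p i : ℂ) ^ e i x) = ∅)} * (2 * R + 1) ^ t ≤
          c * (2 * R + 1) ^ (N * ∑ j, (A j).card + r - 1)) ∧
    (∀ (v : Fin N → AbsoluteValue ℂ ℝ) (s : Fin N → ℝ), (∀ i, s i ≠ 0) → ∀ B : ℝ, ∃ c : ℕ, ∀ R : ℕ, 1 ≤ R →
        ∃ E : Finset (Fin N → Coeff A → ℤ),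
          E.card * (2 * R + 1) ^ t ≤ c * (2 * R + 1) ^ (N * ∑ j, (A j).card + r - 1) ∧
          ∀ e : Fin N → Coeff A → ℤ, (∀ i x, |e i x| ≤ R) → e ∉ E →
            ∀ b : Coeff A → ℂ, (∀ x, b x ≠ 0) →
              (∀ i x, |Real.log (v i (b x)) - s i * e i x| ≤ B) → TypicalWithin v B A b) := by
  classical
  refine ⟨fun p hp hpi a ha => ?_, fun v s hs B => general A hA N t hN v s hs B⟩
  have hfact : ∀ i, Fact (p i).Prime := fun i => ⟨hp i⟩
  let τ : ∀ i, ℂ →+* PadicAlgCl (p i) := fun i =>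
    Classical.choice (H936R2.exists_embedding (p i))
  let s : Fin N → ℝ := fun i => -Real.log (p i)
  have hs : ∀ i, s i ≠ 0 := fun i =>
    neg_ne_zero.2 (Real.log_pos (by exact_mod_cast (hp i).one_lt)).ne'
  let B : ℝ := ∑ i, ∑ x, |Real.log (TH526.ZT.pabs (p i) (τ i) (a x))|
  have hB0 : 0 ≤ B := Finset.sum_nonneg fun _ _ => Finset.sum_nonneg fun _ _ => abs_nonneg _
  have hB : ∀ i x, |Real.log (TH526.ZT.pabs (p i) (τ i) (a x))| ≤ B := fun i x =>
    (Finset.single_le_sum (f := fun x => |Real.log (TH526.ZT.pabs (p i) (τ i) (a x))|)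
      (fun _ _ => abs_nonneg _) (Finset.mem_univ x)).trans
    (Finset.single_le_sum (f := fun i => ∑ x, |Real.log (TH526.ZT.pabs (p i) (τ i) (a x))|)
      (fun _ _ => Finset.sum_nonneg fun _ _ => abs_nonneg _) (Finset.mem_univ i))
  obtain ⟨c, hc⟩ := general A hA N t hN (fun i => TH526.ZT.pabs (p i) (τ i)) s hs B
  refine ⟨c, fun R hR => ?_⟩
  obtain ⟨E, hE, hE'⟩ := hc R hR
  refine le_trans (Nat.mul_le_mul_right _ ?_) hE
  have hlog : ∀ (i : Fin N) (e : Fin N → Coeff A → ℤ) (x : Coeff A),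
      Real.log (TH526.ZT.pabs (p i) (τ i) (∏ k, (p k : ℂ) ^ e k x)) = s i * e i x := by
    intro i e x
    have hq : (∏ k, (p k : ℚ) ^ e k x) ≠ 0 := Finset.prod_ne_zero_iff.2 fun k _ =>
      zpow_ne_zero _ (by exact_mod_cast (hp k).ne_zero)
    have h1 : (∏ k, (p k : ℂ) ^ e k x) = ((∏ k, (p k : ℚ) ^ e k x : ℚ) : ℂ) := by
      push_cast
      rfl
    rw [h1, TH526.ZT.log_pabs _ _ _ hq]
    have h2 : padicValRat (p i) (∏ k, (p k : ℚ) ^ e k x) = e i x := by
      have h3 : ∀ t : Finset (Fin N), padicValRat (p i) (∏ k ∈ t, (p k : ℚ) ^ e k x) =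
          ∑ k ∈ t, padicValRat (p i) ((p k : ℚ) ^ e k x) := by
        intro t
        induction t using Finset.induction_on with
        | empty => simp
        | insert a t ha ih =>
          rw [Finset.prod_insert ha, Finset.sum_insert ha, padicValRat.mul, ih]
          · exact zpow_ne_zero _ (by exact_mod_cast (hp a).ne_zero)
          · exact Finset.prod_ne_zero_iff.2 fun k _ =>
              zpow_ne_zero _ (by exact_mod_cast (hp k).ne_zero)
      rw [h3, Finset.sum_eq_single i]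
      · rw [padicValRat.zpow, padicValRat.self (hp i).one_lt, mul_one]
      · intro k _ hk
        have h4 : padicValNat (p i) (p k) = 0 := by
          apply padicValNat.eq_zero_of_not_dvd
          intro hd
          exact hk (hpi ((Nat.prime_dvd_prime_iff_eq (hp i) (hp k)).1 hd)).symm
        rw [padicValRat.zpow, padicValRat.of_nat, h4]
        simp
      · intro hi
        exact absurd (Finset.mem_univ i) hi
    rw [h2]
    change -(e i x : ℝ) * Real.log (p i) = -Real.log (p i) * e i x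
    ring
  have hp0 : ∀ (e : Fin N → Coeff A → ℤ) (x : Coeff A), (∏ k, (p k : ℂ) ^ e k x) ≠ 0 :=
    fun e x => Finset.prod_ne_zero_iff.2 fun k _ =>
      zpow_ne_zero _ (by exact_mod_cast (hp k).ne_zero)
  have hinj : Nat.card {e : Fin N → Coeff A → ℤ // (∀ i x, |e i x| ≤ R) ∧
      ¬ (Typical A (fun x => a x * ∏ i, (p i : ℂ) ^ e i x) ∧
        U A (fun x => a x * ∏ i, (p i : ℂ) ^ e i x) = ∅)} ≤ Nat.card E := by
    refine Nat.card_le_card_of_injective (fun e => ⟨e.1, ?_⟩) ?_
    · by_contra hcon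
      apply e.2.2
      have hno := hE' e.1 e.2.1 hcon (fun x => a x * ∏ i, (p i : ℂ) ^ e.1 i x)
        (fun x => mul_ne_zero (ha x) (hp0 e.1 x))
        (fun i x => by
          rw [map_mul, Real.log_mul ((TH526.ZT.pabs (p i) (τ i)).ne_zero (ha x))
            ((TH526.ZT.pabs (p i) (τ i)).ne_zero (hp0 e.1 x)), hlog, add_sub_cancel_right]
          exact hB i x)
      have hty : Typical A (fun x => a x * ∏ i, (p i : ℂ) ^ e.1 i x) := by
        rintro M η ⟨k, hk, hηk⟩ W hWV hWT hW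
        refine hno M η (fun j h0 => ?_) (fun i j => ?_) W hWV hWT hW
        · have := hηk j
          rw [h0, zero_pow hk.ne'] at this
          exact zero_ne_one this
        · have h1 := congrArg (TH526.ZT.pabs (p i) (τ i)) (hηk j)
          rw [map_pow, map_one] at h1
          have h2 := (pow_eq_one_iff_of_nonneg (AbsoluteValue.nonneg _ _) hk.ne').1 h1
          rw [h2, Real.log_one, abs_zero]
          exact hB0
      exact ⟨hty, U_empty A _ hty⟩
    · intro e e' hee
      exact Subtype.ext (congrArg (fun z : E => (z : Fin N → Coeff A → ℤ)) hee)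
  have hEc : Nat.card E = E.card := by rw [Nat.card_eq_fintype_card, Fintype.card_coe]
  rwa [hEc] at hinj

end Pool.Agent.Results.MP_c95b3b_ag.SUnitSystems
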